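import Pool.Agent.H821.KSS.Glue
import Pool.Agent.H821.KSS.BlockSemi

/-!
# MP_5db720_gt, Q1: closed subspaces of `k`-semistratifiable `k_ℝ`-spaces

We answer Q1 negatively: there is a `k`-semistratifiable `k_ℝ`-space with a closed subspace that is
not a `k_ℝ`-space.
-/

open Set Topology Filter

namespace Pool.Agent.Results.MP_5db720_gt.ClosedSubspaceNotKR

/-- `X` is `k`-semistratifiable: every open set `U` can be assigned a sequence `(S U n)` of closed
sets with union `U`, such that every compact subset of `U` lies in one of the `S U n`, and such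
that `S U n ⊆ S V n` whenever `U ⊆ V` are open. -/
def KSemistratifiable (X : Type) [TopologicalSpace X] : Prop :=
  ∃ S : Set X → ℕ → Set X,
    (∀ U, IsOpen U → ∀ n, IsClosed (S U n)) ∧
    (∀ U, IsOpen U → U = ⋃ n, S U n) ∧
    (∀ U, IsOpen U → ∀ K, IsCompact K → K ⊆ U → ∃ n, K ⊆ S U n) ∧
    (∀ U V, IsOpen U → IsOpen V → U ⊆ V → ∀ n, S U n ⊆ S V n)

/-- `X` is a `k_ℝ`-space: `X` is Tychonoff (completely regular and `T₀`, hence Hausdorff) and every
real function whose restriction to each compact set is continuous is continuous. -/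
def IsKRSpace (X : Type) [TopologicalSpace X] : Prop :=
  T35Space X ∧ ∀ f : X → ℝ, (∀ K : Set X, IsCompact K → ContinuousOn f K) → Continuous f

/-- **Negative answer to Q1 of MP_5db720_gt.** There are a `k`-semistratifiable `k_ℝ`-space `X`, a
closed set `F ⊆ X` and a real function on `F` that is continuous on every compact subset of `F`
but is not continuous on `F`. -/
theorem result : ∃ (X : Type) (_ : TopologicalSpace X),
    KSemistratifiable X ∧ IsKRSpace X ∧
    ∃ F : Set X, IsClosed F ∧ ∃ f : F → ℝ,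
      (∀ K : Set F, IsCompact K → ContinuousOn f K) ∧ ¬ Continuous f := by
  have hK := Pool.Agent.H821.KSS.isClosed_Pts
  refine ⟨Pool.Agent.H821.KSS.Glue Pool.Agent.H821.KSS.Pts, inferInstance,
    Pool.Agent.H821.KSS.ksemi_glue hK Pool.Agent.H821.KSS.ksemi_blk,
    ⟨?_, Pool.Agent.H821.KSS.kr_glue Pool.Agent.H821.KSS.kr_blk⟩,
    Pool.Agent.H821.KSS.Fset Pool.Agent.H821.KSS.Pts Pool.Agent.H821.KSS.Roots,
    Pool.Agent.H821.KSS.isClosed_Fset Pool.Agent.H821.KSS.isClosed_Roots,
    Pool.Agent.H821.KSS.bad _ _,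
    fun C hC => Pool.Agent.H821.KSS.bad_continuousOn hK
      Pool.Agent.H821.KSS.disjoint_Roots_Pts hC,
    Pool.Agent.H821.KSS.bad_not_continuous Pool.Agent.H821.KSS.not_separated⟩
  have : T0Space (Pool.Agent.H821.KSS.Glue Pool.Agent.H821.KSS.Pts) :=
    Pool.Agent.H821.KSS.t0_glue
  exact { }

end Pool.Agent.Results.MP_5db720_gt.ClosedSubspaceNotKR
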